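import Mathlib
import Pool.Agent.V1195.CharTools

set_option autoImplicit false
open Filter Topology MeasureTheory
open scoped InnerProductSpace ENNReal

namespace Pool.Agent.Results.MP_f617a8_an.CompletelyNonunitary

noncomputable section

section General

variable {X : Type*} [NormedAddCommGroup X] [InnerProductSpace ℂ X]

/-- `P f = ∑_n ⟨f, s n⟩ c n` for all `f` (inner product linear in `f`). -/
def IsExpansion (s c : ℕ → X) (P : X →L[ℂ] X) : Prop :=
  ∀ f : X, HasSum (fun n : ℕ => ⟪s n, f⟫_ℂ • c n) (P f)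

/-- The closed linear span of `v, P v, P² v, …` is the whole space. -/
def IsCyclicFor (P : X →L[ℂ] X) (v : X) : Prop :=
  (Submodule.span ℂ (Set.range fun n : ℕ => (P ^ n) v)).topologicalClosure = ⊤

/-- The only subspace `M`, invariant under `P` and its adjoint, with `P(M) = M` is zero; in
particular there is no nonzero closed reducing subspace on which `P` acts unitarily. -/
def IsCompletelyNonunitary [CompleteSpace X] (P : X →L[ℂ] X) : Prop :=
  ∀ M : Submodule ℂ X, (∀ x ∈ M, P x ∈ M) → (∀ x ∈ M, ContinuousLinearMap.adjoint P x ∈ M) →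
    (∀ x ∈ M, ∃ y ∈ M, P y = x) → M = ⊥

end General

/-- Lebesgue measure on `(0, π)`. -/
abbrev mu : Measure ℝ := volume.restrict (Set.Ioo (0 : ℝ) Real.pi)

/-- The complex Hilbert space `L²(0, π)`. -/
abbrev H : Type := Lp ℂ 2 mu

/-- the normalising factor `√(2/π)` -/
def K : ℝ := Real.sqrt (2 / Real.pi)

lemma K_pos : 0 < K := Real.sqrt_pos.2 (by positivity)

/-- The function `s_n(t) = √(2/π) sin (n t)` as a bounded continuous function. -/
def sB (n : ℕ) : BoundedContinuousFunction ℝ ℂ :=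
  BoundedContinuousFunction.ofNormedAddCommGroup
    (fun t : ℝ => ((K * Real.sin (n * t) : ℝ) : ℂ)) (by fun_prop) K (by
      intro t
      rw [Complex.norm_real, Real.norm_eq_abs, abs_mul, abs_of_pos K_pos]
      exact mul_le_of_le_one_right K_pos.le (Real.abs_sin_le_one _))

/-- The function `c_n(t) = √(2/π) cos (n t)` as a bounded continuous function. -/
def cB (n : ℕ) : BoundedContinuousFunction ℝ ℂ :=
  BoundedContinuousFunction.ofNormedAddCommGroup
    (fun t : ℝ => ((K * Real.cos (n * t) : ℝ) : ℂ)) (by fun_prop) K (by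
      intro t
      rw [Complex.norm_real, Real.norm_eq_abs, abs_mul, abs_of_pos K_pos]
      exact mul_le_of_le_one_right K_pos.le (Real.abs_cos_le_one _))

/-- `s_n` as a vector of `L²(0, π)`. -/
def sv (n : ℕ) : H := BoundedContinuousFunction.toLp 2 mu ℂ (sB n)

/-- `c_n` as a vector of `L²(0, π)`. -/
def cv (n : ℕ) : H := BoundedContinuousFunction.toLp 2 mu ℂ (cB n)

/-- The constant function `1` as a vector of `L²(0, π)`. -/
def one : H := BoundedContinuousFunction.toLp 2 mu ℂ (BoundedContinuousFunction.const ℝ (1 : ℂ))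

/-- `P` is the re-expansion operator: `P f = ∑_{n ≥ 1} ⟨f, s_n⟩ c_n` for all `f`. -/
def IsReexpansion (P : H →L[ℂ] H) : Prop :=
  IsExpansion (fun n => sv (n + 1)) (fun n => cv (n + 1)) P

lemma sB_apply (n : ℕ) (t : ℝ) : sB n t = ((K * Real.sin (n * t) : ℝ) : ℂ) := rfl
lemma cB_apply (n : ℕ) (t : ℝ) : cB n t = ((K * Real.cos (n * t) : ℝ) : ℂ) := rfl

lemma K_sq : K * K = 2 / Real.pi := Real.mul_self_sqrt (by positivity)

/-- `∫_0^π cos(k t) dt` -/
lemma int_cos (k : ℤ) : ∫ t in (0 : ℝ)..Real.pi, Real.cos (k * t) =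
    if k = 0 then Real.pi else 0 := by
  by_cases hk : k = 0
  · subst hk; simp
  · rw [if_neg hk]
    have hk' : (k : ℝ) ≠ 0 := by exact_mod_cast hk
    have h1 : ∀ u : ℝ, HasDerivAt (fun u => Real.sin (k * u) / k) (Real.cos (k * u)) u := by
      intro u
      have h1 : HasDerivAt (fun u : ℝ => (k : ℝ) * u) k u := by
        simpa using (hasDerivAt_id u).const_mul (k : ℝ)
      have h2 := h1.sin.div_const (k : ℝ)
      refine h2.congr_deriv ?_
      field_simp
    rw [intervalIntegral.integral_eq_sub_of_hasDerivAt (fun u _ => h1 u)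
      (Continuous.intervalIntegrable (by fun_prop) _ _), Real.sin_int_mul_pi]
    simp

lemma inner_toLp (f g : BoundedContinuousFunction ℝ ℂ) :
    ⟪(BoundedContinuousFunction.toLp 2 mu ℂ f : H), BoundedContinuousFunction.toLp 2 mu ℂ g⟫_ℂ =
      ∫ t in (0 : ℝ)..Real.pi, (starRingEnd ℂ) (f t) * g t := by
  rw [L2.inner_def, intervalIntegral.integral_of_le Real.pi_pos.le, integral_Ioc_eq_integral_Ioo]
  refine integral_congr_ae ?_
  filter_upwards [BoundedContinuousFunction.coeFn_toLp (p := 2) (μ := mu) ℂ f,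
    BoundedContinuousFunction.coeFn_toLp (p := 2) (μ := mu) ℂ g] with t h1 h2
  rw [h1, h2]
  simp [mul_comm]

lemma orthonormal_sv : Orthonormal ℂ (fun n : ℕ => sv (n + 1)) := by
  rw [orthonormal_iff_ite]
  intro m n
  rw [sv, sv, inner_toLp]
  have h1 : ∀ t : ℝ, (starRingEnd ℂ) (sB (m + 1) t) * sB (n + 1) t =
      ((K * K * (Real.cos (((m : ℤ) - n : ℤ) * t) / 2) -
        K * K * (Real.cos (((m : ℤ) + n + 2 : ℤ) * t) / 2) : ℝ) : ℂ) := by
    intro t
    have a1 : ((((m : ℤ) - n : ℤ) : ℝ)) * t = ((m + 1 : ℕ) : ℝ) * t - ((n + 1 : ℕ) : ℝ) * t := by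
      push_cast; ring
    have a2 : ((((m : ℤ) + n + 2 : ℤ) : ℝ)) * t = ((m + 1 : ℕ) : ℝ) * t + ((n + 1 : ℕ) : ℝ) * t := by
      push_cast; ring
    rw [sB_apply, sB_apply, Complex.conj_ofReal, ← Complex.ofReal_mul, a1, a2, Real.cos_sub,
      Real.cos_add]
    congr 1
    ring
  simp_rw [h1]
  rw [intervalIntegral.integral_ofReal,
    intervalIntegral.integral_sub (Continuous.intervalIntegrable (by fun_prop) _ _)
      (Continuous.intervalIntegrable (by fun_prop) _ _),
    intervalIntegral.integral_const_mul, intervalIntegral.integral_const_mul,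
    intervalIntegral.integral_div, intervalIntegral.integral_div, int_cos, int_cos,
    if_neg (show ((m : ℤ) + n + 2) ≠ 0 by omega), K_sq]
  have hpi := Real.pi_ne_zero
  by_cases h : m = n
  · subst h
    simp
  · rw [if_neg h, if_neg (by omega)]; simp

lemma orthonormal_cv : Orthonormal ℂ (fun n : ℕ => cv (n + 1)) := by
  rw [orthonormal_iff_ite]
  intro m n
  rw [cv, cv, inner_toLp]
  have h1 : ∀ t : ℝ, (starRingEnd ℂ) (cB (m + 1) t) * cB (n + 1) t =
      ((K * K * (Real.cos (((m : ℤ) - n : ℤ) * t) / 2) +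
        K * K * (Real.cos (((m : ℤ) + n + 2 : ℤ) * t) / 2) : ℝ) : ℂ) := by
    intro t
    have a1 : ((((m : ℤ) - n : ℤ) : ℝ)) * t = ((m + 1 : ℕ) : ℝ) * t - ((n + 1 : ℕ) : ℝ) * t := by
      push_cast; ring
    have a2 : ((((m : ℤ) + n + 2 : ℤ) : ℝ)) * t = ((m + 1 : ℕ) : ℝ) * t + ((n + 1 : ℕ) : ℝ) * t := by
      push_cast; ring
    rw [cB_apply, cB_apply, Complex.conj_ofReal, ← Complex.ofReal_mul, a1, a2, Real.cos_sub,
      Real.cos_add]
    congr 1
    ring
  simp_rw [h1]
  rw [intervalIntegral.integral_ofReal,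
    intervalIntegral.integral_add (Continuous.intervalIntegrable (by fun_prop) _ _)
      (Continuous.intervalIntegrable (by fun_prop) _ _),
    intervalIntegral.integral_const_mul, intervalIntegral.integral_const_mul,
    intervalIntegral.integral_div, intervalIntegral.integral_div, int_cos, int_cos,
    if_neg (show ((m : ℤ) + n + 2) ≠ 0 by omega), K_sq]
  have hpi := Real.pi_ne_zero
  by_cases h : m = n
  · subst h
    simp
  · rw [if_neg h, if_neg (by omega)]; simp

/-- The constants are orthogonal to the cosines. -/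
lemma inner_cv_one (n : ℕ) : ⟪cv (n + 1), one⟫_ℂ = 0 := by
  rw [cv, one, inner_toLp]
  have h1 : ∀ t : ℝ, (starRingEnd ℂ) (cB (n + 1) t) *
      (BoundedContinuousFunction.const ℝ (1 : ℂ)) t =
      ((K * Real.cos (((n + 1 : ℕ) : ℤ) * t) : ℝ) : ℂ) := by
    intro t
    rw [cB_apply, Complex.conj_ofReal, BoundedContinuousFunction.const_apply, mul_one]
    push_cast; rfl
  simp_rw [h1]
  rw [intervalIntegral.integral_ofReal, intervalIntegral.integral_const_mul, int_cos,
    if_neg (by omega)]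
  simp

section Operator

variable {P : H →L[ℂ] H} (hP : IsReexpansion P)
include hP

lemma P_sv (n : ℕ) : P (sv (n + 1)) = cv (n + 1) := by
  have h1 := hP (sv (n + 1))
  have h2 : (fun m : ℕ => ⟪sv (m + 1), sv (n + 1)⟫_ℂ • cv (m + 1)) =
      fun m => if m = n then cv (n + 1) else 0 := by
    funext m
    have h3 := (orthonormal_iff_ite.1 orthonormal_sv) m n
    rw [h3]
    by_cases h : m = n
    · subst h; simp
    · rw [if_neg h, if_neg h, zero_smul]
  rw [h2] at h1
  exact h1.unique (hasSum_ite_eq n (cv (n + 1)))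

lemma norm_P_le (f : H) : ‖P f‖ ≤ ‖f‖ := by
  have h1 := (hP f)
  have h2 : Tendsto (fun s : Finset ℕ => ‖∑ n ∈ s, ⟪sv (n + 1), f⟫_ℂ • cv (n + 1)‖) atTop
      (𝓝 ‖P f‖) := Tendsto.norm h1
  refine le_of_tendsto' h2 (fun s => ?_)
  have h3 : ‖∑ n ∈ s, ⟪sv (n + 1), f⟫_ℂ • cv (n + 1)‖ ^ 2 = ∑ n ∈ s, ‖⟪sv (n + 1), f⟫_ℂ‖ ^ 2 := by
    have h4 := orthonormal_cv.inner_sum (fun n => ⟪sv (n + 1), f⟫_ℂ)
      (fun n => ⟪sv (n + 1), f⟫_ℂ) s
    have h5 := inner_self_eq_norm_sq_to_K (𝕜 := ℂ) (∑ n ∈ s, ⟪sv (n + 1), f⟫_ℂ • cv (n + 1))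
    rw [h4] at h5
    have h6 : ((‖∑ n ∈ s, ⟪sv (n + 1), f⟫_ℂ • cv (n + 1)‖ ^ 2 : ℝ) : ℂ) =
        ((∑ n ∈ s, ‖⟪sv (n + 1), f⟫_ℂ‖ ^ 2 : ℝ) : ℂ) := by
      push_cast
      refine Eq.trans ?_ (Eq.trans h5.symm ?_)
      · simp
      · refine Finset.sum_congr rfl fun m _ => ?_
        rw [mul_comm, Complex.mul_conj, Complex.normSq_eq_norm_sq]
        push_cast; rfl
    exact_mod_cast h6
  have h4 := orthonormal_sv.sum_inner_products_le (x := f) (s := s)
  rw [← h3] at h4
  exact (pow_le_pow_iff_left₀ (norm_nonneg _) (norm_nonneg _) two_ne_zero).1 h4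

end Operator

lemma exists_P : ∃ P : H →L[ℂ] H, IsReexpansion P := by
  let Ws := orthonormal_sv.orthogonalFamily.linearIsometry
  let Wc := orthonormal_cv.orthogonalFamily.linearIsometry
  refine ⟨Wc.toContinuousLinearMap.comp
    (ContinuousLinearMap.adjoint Ws.toContinuousLinearMap), fun f => ?_⟩
  have h1 := orthonormal_cv.orthogonalFamily.hasSum_linearIsometry
    ((ContinuousLinearMap.adjoint Ws.toContinuousLinearMap) f)
  have h2 : ∀ n, ((ContinuousLinearMap.adjoint Ws.toContinuousLinearMap) f : lp (fun _ : ℕ => ℂ) 2) n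
      = ⟪sv (n + 1), f⟫_ℂ := by
    intro n
    have h3 : ⟪(lp.single 2 n (1 : ℂ) : lp (fun _ : ℕ => ℂ) 2),
        (ContinuousLinearMap.adjoint Ws.toContinuousLinearMap) f⟫_ℂ =
        ((ContinuousLinearMap.adjoint Ws.toContinuousLinearMap) f : lp (fun _ : ℕ => ℂ) 2) n := by
      rw [lp.inner_single_left]; simp
    rw [← h3, ContinuousLinearMap.adjoint_inner_right]
    congr 1
    have h4 := orthonormal_sv.orthogonalFamily.linearIsometry_apply_single (i := n) (1 : ℂ)
    refine h4.trans ?_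
    simp
  have h5 : (fun n : ℕ => ⟪sv (n + 1), f⟫_ℂ • cv (n + 1)) =
      fun i => (LinearIsometry.toSpanSingleton ℂ H (orthonormal_cv.1 i))
        ((((ContinuousLinearMap.adjoint Ws.toContinuousLinearMap) f :
          lp (fun _ : ℕ => ℂ) 2) : ℕ → ℂ) i) := by
    funext n
    rw [h2]; rfl
  rw [h5]
  exact h1

/-! ### The holomorphic functions -/

/-- `F(w) = exp (i ξ log ((1+w)/(1-w)))` -/
def F (ξ : ℝ) (w : ℂ) : ℂ := Complex.exp (ξ * Complex.log ((1 + w) / (1 - w)) * Complex.I)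

lemma re_pos {w : ℂ} (hw : ‖w‖ < 1) : 0 < ((1 + w) / (1 - w)).re := by
  have h1 : w.re ^ 2 + w.im ^ 2 < 1 := by
    have h2 : ‖w‖ ^ 2 < 1 := by nlinarith [norm_nonneg w]
    rw [← Complex.normSq_eq_norm_sq, Complex.normSq_apply] at h2
    nlinarith
  have hne : (1 - w) ≠ 0 := by
    intro h
    have : w = 1 := (sub_eq_zero.1 h).symm
    rw [this] at hw; simp at hw
  have hpos : 0 < Complex.normSq (1 - w) := Complex.normSq_pos.2 hne
  rw [Complex.div_re, ← add_div]
  refine div_pos ?_ hpos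
  simp only [Complex.add_re, Complex.one_re, Complex.sub_re, Complex.add_im, Complex.one_im,
    Complex.sub_im]
  nlinarith

lemma differentiableOn_F (ξ : ℝ) : DifferentiableOn ℂ (F ξ) (Metric.ball 0 1) := by
  intro w hw
  rw [mem_ball_zero_iff] at hw
  have hne : (1 - w) ≠ 0 := by
    intro h
    have : w = 1 := (sub_eq_zero.1 h).symm
    rw [this] at hw; simp at hw
  have hsl : (1 + w) / (1 - w) ∈ Complex.slitPlane := Or.inl (re_pos hw)
  have h1 : DifferentiableAt ℂ (fun w : ℂ => (1 + w) / (1 - w)) w :=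
    ((differentiableAt_const _).add differentiableAt_id).div
      ((differentiableAt_const _).sub differentiableAt_id) hne
  exact (((h1.clog hsl).const_mul (ξ : ℂ)).mul_const Complex.I).cexp.differentiableWithinAt

lemma norm_F_le (ξ : ℝ) (w : ℂ) : ‖F ξ w‖ ≤ Real.exp (|ξ| * Real.pi) := by
  rw [F, Complex.norm_exp]
  apply Real.exp_le_exp.2
  have h1 : (ξ * Complex.log ((1 + w) / (1 - w)) * Complex.I).re =
      -(ξ * Complex.arg ((1 + w) / (1 - w))) := by
    rw [Complex.mul_I_re, Complex.im_ofReal_mul, Complex.log_im]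
  rw [h1]
  have h2 := Complex.abs_arg_le_pi ((1 + w) / (1 - w))
  calc -(ξ * Complex.arg ((1 + w) / (1 - w))) ≤ |ξ * Complex.arg ((1 + w) / (1 - w))| :=
        neg_le_abs _
    _ = |ξ| * |Complex.arg ((1 + w) / (1 - w))| := abs_mul _ _
    _ ≤ |ξ| * Real.pi := mul_le_mul_of_nonneg_left h2 (abs_nonneg _)

/-- The real variable `u(t) = log cot (t/2)`. -/
def u (t : ℝ) : ℝ := Real.log (Real.cos (t / 2) / Real.sin (t / 2))

lemma measurable_u : Measurable u := by unfold u; fun_prop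

lemma trig_pos {t : ℝ} (ht : t ∈ Set.Ioo (0 : ℝ) Real.pi) :
    0 < Real.cos (t / 2) ∧ 0 < Real.sin (t / 2) := by
  constructor
  · exact Real.cos_pos_of_mem_Ioo ⟨by linarith [ht.1, Real.pi_pos], by linarith [ht.2]⟩
  · exact Real.sin_pos_of_pos_of_lt_pi (by linarith [ht.1]) (by linarith [ht.2, Real.pi_pos])

lemma exp_half (t : ℝ) : Complex.exp (t * Complex.I) =
    ((Real.cos (t / 2) ^ 2 - Real.sin (t / 2) ^ 2 : ℝ) : ℂ) +
      ((2 * Real.sin (t / 2) * Real.cos (t / 2) : ℝ) : ℂ) * Complex.I := by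
  rw [Complex.exp_mul_I, ← Complex.ofReal_cos, ← Complex.ofReal_sin]
  have h1 : Real.cos t = Real.cos (t / 2) ^ 2 - Real.sin (t / 2) ^ 2 := by
    rw [← Real.cos_two_mul']; congr 1; ring
  have h2 : Real.sin t = 2 * Real.sin (t / 2) * Real.cos (t / 2) := by
    rw [← Real.sin_two_mul]; congr 1; ring
  rw [h1, h2]

lemma ratio_plus {t : ℝ} (ht : t ∈ Set.Ioo (0 : ℝ) Real.pi) :
    1 - Complex.exp (t * Complex.I) ≠ 0 ∧
    (1 + Complex.exp (t * Complex.I)) / (1 - Complex.exp (t * Complex.I)) =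
      ((Real.cos (t / 2) / Real.sin (t / 2) : ℝ) : ℂ) * Complex.I := by
  obtain ⟨hc, hs⟩ := trig_pos ht
  have hcs : Real.cos (t / 2) ^ 2 + Real.sin (t / 2) ^ 2 = 1 := Real.cos_sq_add_sin_sq _
  have hne : 1 - Complex.exp (t * Complex.I) ≠ 0 := by
    intro h
    have h1 := congrArg Complex.re h
    rw [exp_half] at h1
    simp only [Complex.sub_re, Complex.one_re, Complex.add_re, Complex.ofReal_re, Complex.mul_re,
      Complex.I_re, Complex.ofReal_im, Complex.I_im, Complex.zero_re] at h1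
    nlinarith
  refine ⟨hne, ?_⟩
  rw [div_eq_iff hne]
  rw [exp_half]
  have hsne : (Real.sin (t / 2)) ≠ 0 := hs.ne'
  apply Complex.ext
  · simp only [Complex.sub_re, Complex.one_re, Complex.add_re, Complex.ofReal_re, Complex.mul_re,
      Complex.I_re, Complex.ofReal_im, Complex.I_im, Complex.mul_im, Complex.sub_im,
      Complex.one_im, Complex.add_im]
    field_simp
    nlinarith
  · simp only [Complex.sub_re, Complex.one_re, Complex.add_re, Complex.ofReal_re, Complex.mul_re,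
      Complex.I_re, Complex.ofReal_im, Complex.I_im, Complex.mul_im, Complex.sub_im,
      Complex.one_im, Complex.add_im]
    field_simp
    nlinarith

lemma ratio_minus {t : ℝ} (ht : t ∈ Set.Ioo (0 : ℝ) Real.pi) :
    1 - Complex.exp (-(t * Complex.I)) ≠ 0 ∧
    (1 + Complex.exp (-(t * Complex.I))) / (1 - Complex.exp (-(t * Complex.I))) =
      ((Real.cos (t / 2) / Real.sin (t / 2) : ℝ) : ℂ) * (-Complex.I) := by
  obtain ⟨h1, h2⟩ := ratio_plus ht
  have hconj : Complex.exp (-(t * Complex.I)) = (starRingEnd ℂ) (Complex.exp (t * Complex.I)) := by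
    rw [← Complex.exp_conj]; congr 1; simp
  constructor
  · rw [hconj]
    intro h
    apply h1
    have h3 := congrArg (starRingEnd ℂ) h
    simpa using h3
  · rw [hconj]
    have h3 := congrArg (starRingEnd ℂ) h2
    rw [map_div₀, map_add, map_sub, map_one, map_mul, Complex.conj_I, Complex.conj_ofReal] at h3
    exact h3

/-- radii tending to one -/
def rr (k : ℕ) : ℝ := 1 - 1 / ((k : ℝ) + 2)

lemma rr_pos (k : ℕ) : 0 < rr k := by
  unfold rr
  have : 1 / ((k : ℝ) + 2) < 1 := by rw [div_lt_one (by positivity)]; linarith [Nat.cast_nonneg (α := ℝ) k]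
  linarith

lemma rr_lt (k : ℕ) : rr k < 1 := by
  unfold rr
  have : 0 < 1 / ((k : ℝ) + 2) := by positivity
  linarith

lemma rr_tendsto : Tendsto rr atTop (𝓝 1) := by
  have h1 : Tendsto (fun k : ℕ => 1 / ((k : ℝ) + 2)) atTop (𝓝 0) := by
    have h2 := (tendsto_add_atTop_iff_nat 2).2 (tendsto_one_div_atTop_nhds_zero_nat (𝕜 := ℝ))
    refine h2.congr (fun k => ?_)
    push_cast; rfl
  have h3 := h1.const_sub 1
  rw [sub_zero] at h3
  exact h3

lemma norm_sB_le (n : ℕ) : ‖sB n‖ ≤ K :=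
  BoundedContinuousFunction.norm_ofNormedAddCommGroup_le _ K_pos.le _

lemma norm_cB_le (n : ℕ) : ‖cB n‖ ≤ K :=
  BoundedContinuousFunction.norm_ofNormedAddCommGroup_le _ K_pos.le _

/-- Taylor coefficients -/
def ta (ξ : ℝ) (n : ℕ) : ℂ := (n.factorial : ℂ)⁻¹ * iteratedDeriv n (F ξ) 0

lemma hasSum_F (ξ : ℝ) {w : ℂ} (hw : ‖w‖ < 1) : HasSum (fun n => ta ξ n * w ^ n) (F ξ w) := by
  have h1 := Complex.hasSum_taylorSeries_on_ball (differentiableOn_F ξ)
    (z := w) (by rw [mem_ball_zero_iff]; exact hw)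
  have h2 : (fun n => ta ξ n * w ^ n) =
      fun n : ℕ => (n.factorial : ℂ)⁻¹ • (w - 0) ^ n • iteratedDeriv n (F ξ) 0 := by
    funext n
    simp only [ta, sub_zero, smul_eq_mul]
    ring
  rw [h2]
  exact h1

lemma ta_zero (ξ : ℝ) : ta ξ 0 = 1 := by
  simp [ta, F]

lemma summable_ta (ξ : ℝ) (k : ℕ) : Summable (fun n => ‖ta ξ n * (rr k : ℂ) ^ n‖) := by
  have h1 : ‖((rr k : ℝ) : ℂ)‖ < 1 := by
    rw [Complex.norm_real, Real.norm_eq_abs, abs_of_pos (rr_pos k)]
    exact rr_lt k
  exact (hasSum_F ξ h1).summable.norm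

/-- point evaluation of a convergent series of bounded continuous functions -/
lemma bcf_hasSum (b : ℕ → ℂ) (hb : Summable (fun n => ‖b n‖))
    (T : ℕ → BoundedContinuousFunction ℝ ℂ) (hT : ∀ n, ‖T n‖ ≤ K) :
    ∃ Z : BoundedContinuousFunction ℝ ℂ, HasSum (fun n => b n • T n) Z ∧
      ∀ t, HasSum (fun n => b n * T n t) (Z t) := by
  have hs : Summable (fun n => b n • T n) := by
    refine Summable.of_norm_bounded (hb.mul_right K) (fun n => ?_)
    rw [norm_smul]
    exact mul_le_mul_of_nonneg_left (hT n) (norm_nonneg _)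
  refine ⟨_, hs.hasSum, fun t => ?_⟩
  have h1 := hs.hasSum.mapL (BoundedContinuousFunction.evalCLM ℂ t)
  exact h1

/-- the boundary vector `exp(i ξ u)` -/
lemma memLp_E (ξ : ℝ) : MemLp (fun t : ℝ => Complex.exp (ξ * u t * Complex.I)) 2 mu := by
  have hm : Measurable (fun t : ℝ => Complex.exp (ξ * u t * Complex.I)) := by
    have := measurable_u
    fun_prop
  refine MemLp.of_bound hm.aestronglyMeasurable 1 (Eventually.of_forall fun t => ?_)
  rw [← Complex.ofReal_mul, Complex.norm_exp_ofReal_mul_I]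

def E (ξ : ℝ) : H := (memLp_E ξ).toLp _

lemma E_coe (ξ : ℝ) : E ξ =ᵐ[mu] fun t : ℝ => Complex.exp (ξ * u t * Complex.I) :=
  MemLp.coeFn_toLp _

lemma F_continuousAt (ξ : ℝ) {w : ℂ} (h1 : 1 - w ≠ 0) (h2 : (1 + w) / (1 - w) ∈ Complex.slitPlane) :
    ContinuousAt (F ξ) w := by
  have h3 : ContinuousAt (fun w : ℂ => (1 + w) / (1 - w)) w :=
    (continuousAt_const.add continuousAt_id).div (continuousAt_const.sub continuousAt_id) h1
  exact (((h3.clog h2).const_mul (ξ : ℂ)).mul_const Complex.I).cexp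

lemma F_plus (ξ : ℝ) {t : ℝ} (ht : t ∈ Set.Ioo (0 : ℝ) Real.pi) :
    ContinuousAt (F ξ) (Complex.exp (t * Complex.I)) ∧
    F ξ (Complex.exp (t * Complex.I)) =
      Complex.exp (ξ * u t * Complex.I) * ((Real.exp (-(ξ * (Real.pi / 2))) : ℝ) : ℂ) := by
  obtain ⟨h1, h2⟩ := ratio_plus ht
  obtain ⟨hc, hs⟩ := trig_pos ht
  have hq : 0 < Real.cos (t / 2) / Real.sin (t / 2) := div_pos hc hs
  constructor
  · refine F_continuousAt ξ h1 ?_
    rw [h2, Complex.mem_slitPlane_iff]
    right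
    rw [Complex.mul_I_im, Complex.ofReal_re]
    exact hq.ne'
  · rw [F, h2, Complex.log_ofReal_mul hq Complex.I_ne_zero, Complex.log_I, Complex.ofReal_exp,
      ← Complex.exp_add]
    congr 1
    rw [u]
    push_cast
    linear_combination (ξ * (Real.pi / 2) : ℂ) * Complex.I_sq

lemma F_minus (ξ : ℝ) {t : ℝ} (ht : t ∈ Set.Ioo (0 : ℝ) Real.pi) :
    ContinuousAt (F ξ) (Complex.exp (-(t * Complex.I))) ∧
    F ξ (Complex.exp (-(t * Complex.I))) =
      Complex.exp (ξ * u t * Complex.I) * ((Real.exp (ξ * (Real.pi / 2)) : ℝ) : ℂ) := by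
  obtain ⟨h1, h2⟩ := ratio_minus ht
  obtain ⟨hc, hs⟩ := trig_pos ht
  have hq : 0 < Real.cos (t / 2) / Real.sin (t / 2) := div_pos hc hs
  constructor
  · refine F_continuousAt ξ h1 ?_
    rw [h2, Complex.mem_slitPlane_iff]
    right
    rw [mul_neg, Complex.neg_im, Complex.mul_I_im, Complex.ofReal_re]
    exact neg_ne_zero.2 hq.ne'
  · rw [F, h2, Complex.log_ofReal_mul hq (neg_ne_zero.2 Complex.I_ne_zero), Complex.log_neg_I,
      Complex.ofReal_exp, ← Complex.exp_add]
    congr 1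
    rw [u]
    push_cast
    linear_combination (-(ξ * (Real.pi / 2)) : ℂ) * Complex.I_sq

/-- the points `r_k e^{±it}` are inside the disc -/
lemma norm_point (k : ℕ) (z : ℂ) (hz : ‖z‖ = 1) : ‖(rr k : ℂ) * z‖ < 1 := by
  rw [norm_mul, hz, mul_one, Complex.norm_real, Real.norm_eq_abs, abs_of_pos (rr_pos k)]
  exact rr_lt k

lemma tendsto_F (ξ : ℝ) (z : ℂ) (hz : ContinuousAt (F ξ) z) :
    Tendsto (fun k => F ξ ((rr k : ℂ) * z)) atTop (𝓝 (F ξ z)) := by
  have h1 : Tendsto (fun k => (rr k : ℂ) * z) atTop (𝓝 z) := by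
    have h2 := ((Complex.continuous_ofReal.tendsto 1).comp rr_tendsto).mul_const z
    rw [Complex.ofReal_one, one_mul] at h2
    exact h2
  exact hz.tendsto.comp h1

lemma norm_exp_I (t : ℝ) : ‖Complex.exp (t * Complex.I)‖ = 1 := Complex.norm_exp_ofReal_mul_I t

lemma norm_exp_neg_I (t : ℝ) : ‖Complex.exp (-(t * Complex.I))‖ = 1 := by
  have h := Complex.norm_exp_ofReal_mul_I (-t)
  rw [← h]; congr 2; push_cast; ring

/-- sine series inside the disc -/
lemma sin_series (ξ : ℝ) (k : ℕ) (t : ℝ) :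
    HasSum (fun n => (ta ξ n * (rr k : ℂ) ^ n) * sB n t)
      (K * (F ξ ((rr k : ℂ) * Complex.exp (t * Complex.I)) -
        F ξ ((rr k : ℂ) * Complex.exp (-(t * Complex.I)))) / (2 * Complex.I)) := by
  have h1 := hasSum_F ξ (norm_point k _ (norm_exp_I t))
  have h2 := hasSum_F ξ (norm_point k _ (norm_exp_neg_I t))
  have h3 := ((h1.sub h2).mul_left (K : ℂ)).div_const (2 * Complex.I)
  have h4 : (fun n => (ta ξ n * (rr k : ℂ) ^ n) * sB n t) = fun n =>
      (K : ℂ) * (ta ξ n * ((rr k : ℂ) * Complex.exp (t * Complex.I)) ^ n -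
        ta ξ n * ((rr k : ℂ) * Complex.exp (-(t * Complex.I))) ^ n) / (2 * Complex.I) := by
    funext n
    rw [sB_apply, mul_pow, mul_pow, ← Complex.exp_nat_mul, ← Complex.exp_nat_mul]
    have h5 : Complex.exp (n * (t * Complex.I)) - Complex.exp (n * (-(t * Complex.I))) =
        2 * Complex.I * ((Real.sin (n * t) : ℝ) : ℂ) := by
      rw [Complex.ofReal_sin, Complex.sin]
      push_cast
      have e1 : (n : ℂ) * (t * Complex.I) = n * t * Complex.I := by ring
      have e2 : (n : ℂ) * -(t * Complex.I) = -(n * t) * Complex.I := by ring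
      rw [e1, e2]
      linear_combination (Complex.exp (n * t * Complex.I) - Complex.exp (-(n * t) * Complex.I)) *
        Complex.I_sq
    have hI : (2 * Complex.I : ℂ) ≠ 0 := by simp
    rw [eq_div_iff hI]
    push_cast at h5 ⊢
    linear_combination (-(K : ℂ) * ta ξ n * (rr k : ℂ) ^ n) * h5
  rw [h4]
  exact h3

/-- cosine series inside the disc -/
lemma cos_series (ξ : ℝ) (k : ℕ) (t : ℝ) :
    HasSum (fun n => (ta ξ n * (rr k : ℂ) ^ n) * cB n t)
      (K * (F ξ ((rr k : ℂ) * Complex.exp (t * Complex.I)) +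
        F ξ ((rr k : ℂ) * Complex.exp (-(t * Complex.I)))) / 2) := by
  have h1 := hasSum_F ξ (norm_point k _ (norm_exp_I t))
  have h2 := hasSum_F ξ (norm_point k _ (norm_exp_neg_I t))
  have h3 := ((h1.add h2).mul_left (K : ℂ)).div_const 2
  have h4 : (fun n => (ta ξ n * (rr k : ℂ) ^ n) * cB n t) = fun n =>
      (K : ℂ) * (ta ξ n * ((rr k : ℂ) * Complex.exp (t * Complex.I)) ^ n +
        ta ξ n * ((rr k : ℂ) * Complex.exp (-(t * Complex.I))) ^ n) / 2 := by
    funext n
    rw [cB_apply, mul_pow, mul_pow, ← Complex.exp_nat_mul, ← Complex.exp_nat_mul]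
    have h5 : Complex.exp (n * (t * Complex.I)) + Complex.exp (n * (-(t * Complex.I))) =
        2 * ((Real.cos (n * t) : ℝ) : ℂ) := by
      rw [Complex.ofReal_cos, Complex.cos]
      push_cast
      have e1 : (n : ℂ) * (t * Complex.I) = n * t * Complex.I := by ring
      have e2 : (n : ℂ) * -(t * Complex.I) = -(n * t) * Complex.I := by ring
      rw [e1, e2]
      ring
    push_cast at h5 ⊢
    linear_combination (-(K : ℂ) * ta ξ n * (rr k : ℂ) ^ n / 2) * h5
  rw [h4]
  exact h3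

/-- The action of `P` on the boundary vectors. -/
lemma P_E {P : H →L[ℂ] H} (hP : IsReexpansion P) (ξ : ℝ) :
    P ((Complex.I * (Real.sinh (ξ * (Real.pi / 2)) : ℂ)) • E ξ) =
      ((Real.cosh (ξ * (Real.pi / 2)) : ℝ) : ℂ) • E ξ - one := by
  have hK : (K : ℂ) ≠ 0 := by exact_mod_cast K_pos.ne'
  -- the approximating vectors
  have hex : ∀ k, ∃ X Y : H, P X = Y - (K : ℂ) • one ∧
      (X =ᵐ[mu] fun t => K * (F ξ ((rr k : ℂ) * Complex.exp (t * Complex.I)) -
        F ξ ((rr k : ℂ) * Complex.exp (-(t * Complex.I)))) / (2 * Complex.I)) ∧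
      (Y =ᵐ[mu] fun t => K * (F ξ ((rr k : ℂ) * Complex.exp (t * Complex.I)) +
        F ξ ((rr k : ℂ) * Complex.exp (-(t * Complex.I)))) / 2) := by
    intro k
    obtain ⟨Zs, hZs, hZs'⟩ := bcf_hasSum _ (summable_ta ξ k) sB norm_sB_le
    obtain ⟨Zc, hZc, hZc'⟩ := bcf_hasSum _ (summable_ta ξ k) cB norm_cB_le
    have h1 := hZs.mapL (BoundedContinuousFunction.toLp 2 mu ℂ :
      BoundedContinuousFunction ℝ ℂ →L[ℂ] H)
    have h2 := hZc.mapL (BoundedContinuousFunction.toLp 2 mu ℂ :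
      BoundedContinuousFunction ℝ ℂ →L[ℂ] H)
    have h3 := h1.mapL P
    refine ⟨BoundedContinuousFunction.toLp 2 mu ℂ Zs, BoundedContinuousFunction.toLp 2 mu ℂ Zc,
      ?_, ?_, ?_⟩
    rotate_left
    · refine (BoundedContinuousFunction.coeFn_toLp (p := 2) (μ := mu) ℂ Zs).trans ?_
      exact Eventually.of_forall fun t => (hZs' t).unique (sin_series ξ k t)
    · refine (BoundedContinuousFunction.coeFn_toLp (p := 2) (μ := mu) ℂ Zc).trans ?_
      exact Eventually.of_forall fun t => (hZc' t).unique (cos_series ξ k t)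
    · -- compare the two series
      have h4 : HasSum (fun n => if n = 0 then (K : ℂ) • one else 0) ((K : ℂ) • one) :=
        hasSum_ite_eq 0 _
      have h5 := h2.sub h4
      refine h3.unique ?_
      convert h5 using 1
      funext n
      rw [map_smul, map_smul, map_smul]
      rcases n with _ | n
      · rw [if_pos rfl]
        have e1 : (BoundedContinuousFunction.toLp 2 mu ℂ (sB 0) : H) = 0 := by
          have : sB 0 = 0 := by ext t; rw [sB_apply]; simp
          rw [this, map_zero]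
        have e2 : (BoundedContinuousFunction.toLp 2 mu ℂ (cB 0) : H) = (K : ℂ) • one := by
          rw [one, ← map_smul]
          congr 1
          ext t; rw [cB_apply]; simp
        rw [e1, e2, map_zero, smul_zero, ta_zero]
        simp
      · rw [if_neg (Nat.succ_ne_zero n), sub_zero]
        congr 1
        exact P_sv hP n
  choose X Y hXY hX hY using hex
  have hmem : ∀ᵐ t ∂mu, t ∈ Set.Ioo (0 : ℝ) Real.pi := ae_restrict_mem measurableSet_Ioo
  have hXlim : Tendsto X atTop (𝓝 (((K : ℂ) * (Complex.I * (Real.sinh (ξ * (Real.pi / 2)) : ℂ))) •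
      E ξ)) := by
    refine Pool.Agent.V1195.CharTools.tendsto_Lp_bdd X _
      (K * Real.exp (|ξ| * Real.pi) * (1 + |Real.sinh (ξ * (Real.pi / 2))|)) ?_ (fun k => ?_) ?_ ?_
    · have := K_pos; positivity
    · filter_upwards [hX k] with t ht
      rw [ht, norm_div, norm_mul, norm_mul, Complex.norm_real, Real.norm_eq_abs, abs_of_pos K_pos,
        Complex.norm_I, mul_one, Complex.norm_ofNat]
      have h1 := norm_sub_le (F ξ ((rr k : ℂ) * Complex.exp (t * Complex.I)))
        (F ξ ((rr k : ℂ) * Complex.exp (-(t * Complex.I))))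
      have h2 := norm_F_le ξ ((rr k : ℂ) * Complex.exp (t * Complex.I))
      have h3 := norm_F_le ξ ((rr k : ℂ) * Complex.exp (-(t * Complex.I)))
      have h4 : K * ‖F ξ ((rr k : ℂ) * Complex.exp (t * Complex.I)) -
          F ξ ((rr k : ℂ) * Complex.exp (-(t * Complex.I)))‖ ≤
          K * (2 * Real.exp (|ξ| * Real.pi)) := mul_le_mul_of_nonneg_left (by linarith) K_pos.le
      have h5 : 0 ≤ K * Real.exp (|ξ| * Real.pi) * |Real.sinh (ξ * (Real.pi / 2))| := by
        have := K_pos; positivity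
      rw [div_le_iff₀ (by norm_num)]
      nlinarith
    · filter_upwards [Lp.coeFn_smul ((K : ℂ) * (Complex.I * (Real.sinh (ξ * (Real.pi / 2)) : ℂ)))
        (E ξ), E_coe ξ] with t h1 h2
      rw [h1, Pi.smul_apply, h2, smul_eq_mul, norm_mul, norm_mul, norm_mul, Complex.norm_real,
        Complex.norm_I, ← Complex.ofReal_mul, Complex.norm_exp_ofReal_mul_I, Complex.norm_real,
        Real.norm_eq_abs, Real.norm_eq_abs, abs_of_pos K_pos, one_mul, mul_one]
      have h3 : 1 ≤ Real.exp (|ξ| * Real.pi) := Real.one_le_exp (by positivity)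
      have h4 : 0 ≤ |Real.sinh (ξ * (Real.pi / 2))| := abs_nonneg _
      have h5 := K_pos
      calc K * |Real.sinh (ξ * (Real.pi / 2))| ≤ K * (1 + |Real.sinh (ξ * (Real.pi / 2))|) := by
            nlinarith
        _ = K * 1 * (1 + |Real.sinh (ξ * (Real.pi / 2))|) := by ring
        _ ≤ _ := by gcongr
    · filter_upwards [hmem, Lp.coeFn_smul ((K : ℂ) *
        (Complex.I * (Real.sinh (ξ * (Real.pi / 2)) : ℂ))) (E ξ), E_coe ξ, ae_all_iff.2 hX]
        with t ht h1 h2 h3
      obtain ⟨c1, v1⟩ := F_plus ξ ht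
      obtain ⟨c2, v2⟩ := F_minus ξ ht
      have h4 := (((tendsto_F ξ _ c1).sub (tendsto_F ξ _ c2)).const_mul (K : ℂ)).div_const
        (2 * Complex.I)
      rw [h1, Pi.smul_apply, h2, smul_eq_mul]
      have h5 : (K : ℂ) * (Complex.I * (Real.sinh (ξ * (Real.pi / 2)) : ℂ)) *
          Complex.exp (ξ * u t * Complex.I) =
          (K : ℂ) * (F ξ (Complex.exp (t * Complex.I)) - F ξ (Complex.exp (-(t * Complex.I)))) /
            (2 * Complex.I) := by
        rw [v1, v2, Real.sinh_eq]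
        have hI : (2 * Complex.I : ℂ) ≠ 0 := by simp
        rw [eq_div_iff hI]
        push_cast
        linear_combination (K * (Complex.exp (ξ * (Real.pi / 2)) -
          Complex.exp (-(ξ * (Real.pi / 2)))) * Complex.exp (ξ * u t * Complex.I) : ℂ) *
            Complex.I_sq
      rw [h5]
      refine h4.congr (fun k => ?_)
      rw [h3 k]
  have hYlim : Tendsto Y atTop (𝓝 (((K : ℂ) * (Real.cosh (ξ * (Real.pi / 2)) : ℂ)) • E ξ)) := by
    refine Pool.Agent.V1195.CharTools.tendsto_Lp_bdd Y _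
      (K * Real.exp (|ξ| * Real.pi) * (1 + |Real.cosh (ξ * (Real.pi / 2))|)) ?_ (fun k => ?_) ?_ ?_
    · have := K_pos; positivity
    · filter_upwards [hY k] with t ht
      rw [ht, norm_div, norm_mul, Complex.norm_real, Real.norm_eq_abs, abs_of_pos K_pos,
        Complex.norm_ofNat]
      have h1 := norm_add_le (F ξ ((rr k : ℂ) * Complex.exp (t * Complex.I)))
        (F ξ ((rr k : ℂ) * Complex.exp (-(t * Complex.I))))
      have h2 := norm_F_le ξ ((rr k : ℂ) * Complex.exp (t * Complex.I))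
      have h3 := norm_F_le ξ ((rr k : ℂ) * Complex.exp (-(t * Complex.I)))
      have h4 : K * ‖F ξ ((rr k : ℂ) * Complex.exp (t * Complex.I)) +
          F ξ ((rr k : ℂ) * Complex.exp (-(t * Complex.I)))‖ ≤
          K * (2 * Real.exp (|ξ| * Real.pi)) := mul_le_mul_of_nonneg_left (by linarith) K_pos.le
      have h5 : 0 ≤ K * Real.exp (|ξ| * Real.pi) * |Real.cosh (ξ * (Real.pi / 2))| := by
        have := K_pos; positivity
      rw [div_le_iff₀ (by norm_num)]
      nlinarith
    · filter_upwards [Lp.coeFn_smul ((K : ℂ) * (Real.cosh (ξ * (Real.pi / 2)) : ℂ))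
        (E ξ), E_coe ξ] with t h1 h2
      rw [h1, Pi.smul_apply, h2, smul_eq_mul, norm_mul, norm_mul, Complex.norm_real,
        ← Complex.ofReal_mul, Complex.norm_exp_ofReal_mul_I, Complex.norm_real,
        Real.norm_eq_abs, Real.norm_eq_abs, abs_of_pos K_pos, mul_one]
      have h3 : 1 ≤ Real.exp (|ξ| * Real.pi) := Real.one_le_exp (by positivity)
      have h4 : 0 ≤ |Real.cosh (ξ * (Real.pi / 2))| := abs_nonneg _
      have h5 := K_pos
      calc K * |Real.cosh (ξ * (Real.pi / 2))| ≤ K * (1 + |Real.cosh (ξ * (Real.pi / 2))|) := by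
            nlinarith
        _ = K * 1 * (1 + |Real.cosh (ξ * (Real.pi / 2))|) := by ring
        _ ≤ _ := by gcongr
    · filter_upwards [hmem, Lp.coeFn_smul ((K : ℂ) *
        (Real.cosh (ξ * (Real.pi / 2)) : ℂ)) (E ξ), E_coe ξ, ae_all_iff.2 hY]
        with t ht h1 h2 h3
      obtain ⟨c1, v1⟩ := F_plus ξ ht
      obtain ⟨c2, v2⟩ := F_minus ξ ht
      have h4 := (((tendsto_F ξ _ c1).add (tendsto_F ξ _ c2)).const_mul (K : ℂ)).div_const 2
      rw [h1, Pi.smul_apply, h2, smul_eq_mul]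
      have h5 : (K : ℂ) * (Real.cosh (ξ * (Real.pi / 2)) : ℂ) *
          Complex.exp (ξ * u t * Complex.I) =
          (K : ℂ) * (F ξ (Complex.exp (t * Complex.I)) + F ξ (Complex.exp (-(t * Complex.I)))) /
            2 := by
        rw [v1, v2, Real.cosh_eq]
        push_cast
        ring
      rw [h5]
      refine h4.congr (fun k => ?_)
      rw [h3 k]
  -- pass to the limit
  have hPX : Tendsto (fun k => P (X k)) atTop (𝓝 (P (((K : ℂ) *
      (Complex.I * (Real.sinh (ξ * (Real.pi / 2)) : ℂ))) • E ξ))) :=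
    (P.continuous.tendsto _).comp hXlim
  have hYX : Tendsto (fun k => P (X k)) atTop
      (𝓝 (((K : ℂ) * (Real.cosh (ξ * (Real.pi / 2)) : ℂ)) • E ξ - (K : ℂ) • one)) := by
    refine (hYlim.sub_const ((K : ℂ) • one)).congr (fun k => ?_)
    rw [hXY k]
  have h6 := tendsto_nhds_unique hPX hYX
  have h7 : (K : ℂ) • P ((Complex.I * (Real.sinh (ξ * (Real.pi / 2)) : ℂ)) • E ξ) =
      (K : ℂ) • (((Real.cosh (ξ * (Real.pi / 2)) : ℝ) : ℂ) • E ξ - one) := by
    rw [← map_smul, smul_smul, h6, smul_sub, smul_smul]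
  exact smul_right_injective H hK h7

/-- The span of the vectors `P^n 1`. -/
def orbitSpan (P : H →L[ℂ] H) : Submodule ℂ H :=
  Submodule.span ℂ (Set.range fun n : ℕ => (P ^ n) one)

lemma one_mem (P : H →L[ℂ] H) : one ∈ orbitSpan P :=
  Submodule.subset_span ⟨0, by simp⟩

lemma P_mem (P : H →L[ℂ] H) {x : H} (hx : x ∈ orbitSpan P) : P x ∈ orbitSpan P := by
  unfold orbitSpan at hx ⊢
  induction hx using Submodule.span_induction with
  | mem x hx =>
    obtain ⟨n, rfl⟩ := hx
    refine Submodule.subset_span ⟨n + 1, ?_⟩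
    change (P ^ (n + 1)) one = P ((P ^ n) one)
    rw [pow_succ']; rfl
  | zero => rw [map_zero]; exact Submodule.zero_mem _
  | add a b _ _ ha hb => rw [map_add]; exact Submodule.add_mem _ ha hb
  | smul c a _ ha => rw [map_smul]; exact Submodule.smul_mem _ _ ha

lemma E_mem {P : H →L[ℂ] H} (hP : IsReexpansion P) (ξ : ℝ) :
    E ξ ∈ (orbitSpan P).topologicalClosure := by
  set c : ℂ := ((Real.cosh (ξ * (Real.pi / 2)) : ℝ) : ℂ) with hc
  set s : ℂ := Complex.I * (Real.sinh (ξ * (Real.pi / 2)) : ℂ) with hs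
  have hcpos := Real.cosh_pos (ξ * (Real.pi / 2))
  have hc0 : c ≠ 0 := by rw [hc]; exact_mod_cast hcpos.ne'
  have h1 := P_E hP ξ
  rw [map_smul] at h1
  have h2 : E ξ = c⁻¹ • one + (c⁻¹ * s) • P (E ξ) := by
    have h3 : c • E ξ = one + s • P (E ξ) := by rw [h1]; abel
    rw [mul_smul, ← smul_add, ← h3, smul_smul, inv_mul_cancel₀ hc0, one_smul]
  have hq : ‖c⁻¹ * s‖ < 1 := by
    rw [norm_mul, norm_inv, hs, norm_mul, Complex.norm_I, one_mul, hc, Complex.norm_real,
      Complex.norm_real, Real.norm_eq_abs, Real.norm_eq_abs, abs_of_pos hcpos, inv_mul_eq_div,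
      div_lt_one hcpos]
    have h4 := Real.cosh_sq_sub_sinh_sq (ξ * (Real.pi / 2))
    refine abs_lt_of_sq_lt_sq ?_ hcpos.le
    linarith
  -- the iteration
  let x : ℕ → H := fun k => Nat.rec 0 (fun _ y => c⁻¹ • one + (c⁻¹ * s) • P y) k
  have hx0 : x 0 = 0 := rfl
  have hxs : ∀ k, x (k + 1) = c⁻¹ • one + (c⁻¹ * s) • P (x k) := fun k => rfl
  have hmem : ∀ k, x k ∈ orbitSpan P := by
    intro k
    induction k with
    | zero => rw [hx0]; exact Submodule.zero_mem _
    | succ k ih =>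
      rw [hxs]
      exact Submodule.add_mem _ (Submodule.smul_mem _ _ (one_mem P))
        (Submodule.smul_mem _ _ (P_mem P ih))
  have hdist : ∀ k, ‖x k - E ξ‖ ≤ ‖c⁻¹ * s‖ ^ k * ‖E ξ‖ := by
    intro k
    induction k with
    | zero => rw [hx0]; simp
    | succ k ih =>
      have h5 : x (k + 1) - E ξ = (c⁻¹ * s) • P (x k - E ξ) := by
        rw [hxs, map_sub, smul_sub]
        nth_rewrite 1 [h2]
        abel
      rw [h5, norm_smul, pow_succ']
      calc ‖c⁻¹ * s‖ * ‖P (x k - E ξ)‖ ≤ ‖c⁻¹ * s‖ * ‖x k - E ξ‖ :=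
            mul_le_mul_of_nonneg_left (norm_P_le hP _) (norm_nonneg _)
        _ ≤ ‖c⁻¹ * s‖ * (‖c⁻¹ * s‖ ^ k * ‖E ξ‖) := mul_le_mul_of_nonneg_left ih (norm_nonneg _)
        _ = _ := by ring
  have hlim : Tendsto x atTop (𝓝 (E ξ)) := by
    rw [tendsto_iff_norm_sub_tendsto_zero]
    have h6 := (tendsto_pow_atTop_nhds_zero_of_lt_one (norm_nonneg _) hq).mul_const ‖E ξ‖
    rw [zero_mul] at h6
    exact squeeze_zero (fun k => norm_nonneg _) hdist h6
  exact mem_closure_of_tendsto hlim (Eventually.of_forall hmem)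

lemma injOn_u : Set.InjOn u (Set.Ioo (0 : ℝ) Real.pi) := by
  intro a ha b hb hab
  obtain ⟨hca, hsa⟩ := trig_pos ha
  obtain ⟨hcb, hsb⟩ := trig_pos hb
  have h1 : Real.cos (a / 2) / Real.sin (a / 2) = Real.cos (b / 2) / Real.sin (b / 2) :=
    Real.log_injOn_pos (Set.mem_Ioi.2 (div_pos hca hsa)) (Set.mem_Ioi.2 (div_pos hcb hsb)) hab
  rw [div_eq_div_iff hsa.ne' hsb.ne'] at h1
  have h2 : Real.sin (b / 2 - a / 2) = 0 := by
    rw [Real.sin_sub]; linarith
  have h3 := (Real.sin_eq_zero_iff_of_lt_of_lt (by linarith [ha.1, ha.2, hb.1, hb.2])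
    (by linarith [ha.1, ha.2, hb.1, hb.2])).1 h2
  linarith

lemma continuousOn_u : ContinuousOn u (Set.Ioo (0 : ℝ) Real.pi) := by
  intro t ht
  obtain ⟨hc, hs⟩ := trig_pos ht
  have h1 : ContinuousAt (fun t : ℝ => Real.cos (t / 2) / Real.sin (t / 2)) t :=
    (by fun_prop : Continuous fun t : ℝ => Real.cos (t / 2)).continuousAt.div
      (by fun_prop : Continuous fun t : ℝ => Real.sin (t / 2)).continuousAt hs.ne'
  exact (h1.log (div_pos hc hs).ne').continuousWithinAt

lemma orth_zero {P : H →L[ℂ] H} (hP : IsReexpansion P) (f : H)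
    (hf : f ∈ (orbitSpan P)ᗮ) : f = 0 := by
  have hf' : f ∈ (orbitSpan P).topologicalClosureᗮ := by
    rwa [Submodule.orthogonal_closure]
  have h1 : ∀ ξ : ℝ, ∫ t, Complex.exp (ξ * u t * Complex.I) * f t ∂mu = 0 := by
    intro ξ
    have h2 := (Submodule.mem_orthogonal _ _).1 hf' _ (E_mem hP (-ξ))
    rw [L2.inner_def] at h2
    rw [← h2]
    refine integral_congr_ae ?_
    filter_upwards [E_coe (-ξ)] with t ht
    rw [ht, RCLike.inner_apply', ← Complex.exp_conj]
    congr 2
    simp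
  have hint : Integrable (fun t => f t) mu := (Lp.memLp f).integrable (by norm_num)
  have h3 := Pool.Agent.V1195.CharTools.setIntegral_zero (μ := mu) u measurable_u
    (fun t => f t) hint h1
  have h4 : (fun t => f t) =ᵐ[mu] 0 := by
    refine hint.ae_eq_zero_of_forall_setIntegral_eq_zero (fun B hB _ => ?_)
    have hB' : MeasurableSet (B ∩ Set.Ioo (0 : ℝ) Real.pi) := hB.inter measurableSet_Ioo
    have hA : MeasurableSet (u '' (B ∩ Set.Ioo (0 : ℝ) Real.pi)) :=
      hB'.image_of_continuousOn_injOn (continuousOn_u.mono Set.inter_subset_right)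
        (injOn_u.mono Set.inter_subset_right)
    have h5 := h3 _ hA
    have h6 : u ⁻¹' (u '' (B ∩ Set.Ioo (0 : ℝ) Real.pi)) ∩ Set.Ioo (0 : ℝ) Real.pi =
        B ∩ Set.Ioo (0 : ℝ) Real.pi := by
      ext t
      constructor
      · rintro ⟨⟨s, hs, hst⟩, ht⟩
        have := injOn_u hs.2 ht hst
        rw [← this]; exact hs
      · intro ht
        exact ⟨⟨t, ht, rfl⟩, ht.2⟩
    rw [Measure.restrict_restrict (measurable_u hA), h6] at h5
    rw [Measure.restrict_restrict hB]
    exact h5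
  exact Lp.eq_zero_iff_ae_eq_zero.2 h4

/-- **Main theorem.** The re-expansion operator exists; for every such operator the vectors
`P^n 1` span a dense subspace, and no nonzero reducing subspace exists which `P` maps onto
itself. -/
theorem result :
    (∃ P : H →L[ℂ] H, IsReexpansion P) ∧
    ∀ P : H →L[ℂ] H, IsReexpansion P → IsCyclicFor P one ∧ IsCompletelyNonunitary P := by
  refine ⟨exists_P, fun P hP => ?_⟩
  have hclos : (orbitSpan P).topologicalClosure = ⊤ := by
    rw [Submodule.topologicalClosure_eq_top_iff, Submodule.eq_bot_iff]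
    exact fun f hf => orth_zero hP f hf
  refine ⟨hclos, fun M h1 h2 h3 => ?_⟩
  rw [Submodule.eq_bot_iff]
  intro f hf
  refine orth_zero hP f ?_
  rw [Submodule.mem_orthogonal]
  -- the constants are orthogonal to the range
  have hran : ∀ y : H, ⟪one, P y⟫_ℂ = 0 := by
    intro y
    have h4 := (hP y).mapL (innerSL ℂ one)
    have h5 : (fun n : ℕ => (innerSL ℂ one) (⟪sv (n + 1), y⟫_ℂ • cv (n + 1))) = fun _ => 0 := by
      funext n
      have h7 : ⟪one, cv (n + 1)⟫_ℂ = 0 := by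
        rw [← inner_conj_symm, inner_cv_one]; simp
      rw [innerSL_apply_apply, inner_smul_right, h7, mul_zero]
    rw [h5] at h4
    exact h4.unique hasSum_zero
  have hpow : ∀ n : ℕ, ∀ g ∈ M, ⟪(P ^ n) one, g⟫_ℂ = 0 := by
    intro n
    induction n with
    | zero =>
      intro g hg
      obtain ⟨y, _, rfl⟩ := h3 g hg
      simpa using hran y
    | succ n ih =>
      intro g hg
      have h6 : (P ^ (n + 1)) one = P ((P ^ n) one) := by rw [pow_succ']; rfl
      rw [h6, ← ContinuousLinearMap.adjoint_inner_right]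
      exact ih _ (h2 g hg)
  intro v hv
  unfold orbitSpan at hv
  induction hv using Submodule.span_induction with
  | mem v hv =>
    obtain ⟨n, rfl⟩ := hv
    exact hpow n f hf
  | zero => simp
  | add a b _ _ ha hb => rw [inner_add_left, ha, hb, add_zero]
  | smul c a _ ha => rw [inner_smul_left, ha, mul_zero]

end

end Pool.Agent.Results.MP_f617a8_an.CompletelyNonunitary
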